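import Pool.Agent.Y946.CM.XDefs
import Pool.Agent.W475.MO.GI

/-!
# The Gaussian explicit formula with finitely many exceptional zeros
-/

set_option autoImplicit false

namespace Pool.Agent.Y847.QRH

open Complex MeasureTheory Filter Topology Set
open Pool.Agent.W76.MO Pool.Agent.W475.MO Pool.Agent.Y946.CM

lemma hyp2 {θ : ℝ} (hθ0 : 0 ≤ θ) {A : ℂ → ℂ} (hdiff : DifferentiableOn ℂ A {s : ℂ | θ < s.re})
    (hbound : ∀ σ₀ : ℝ, θ < σ₀ → ∃ C : ℝ, 0 < C ∧ ∀ s : ℂ, σ₀ ≤ s.re → s.re ≤ 2 →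
      ‖A s‖ ≤ C * Real.log (|s.im| + 3)) {σ₀ η : ℝ} (L : ℝ) (h1 : θ < σ₀)
    (h2 : σ₀ < 1) (hη : 0 < η) : ∃ K : ℝ,
    (∀ z : ℂ, z.im ∈ Set.uIcc (-σ₀) (-2) →
      DifferentiableAt ℂ (fun z => A (I * z) * G η L (I * z)) z) ∧
    (∀ z : ℂ, z.im ∈ Set.uIcc (-σ₀) (-2) →
      ‖(fun z => A (I * z) * G η L (I * z)) z‖ ≤ K * Real.exp (-(η ^ 2 / 4) * z.re ^ 2)) := by
  obtain ⟨C, hC, hb⟩ := hbound σ₀ h1
  have hab : ∀ z : ℂ, z.im ∈ Set.uIcc (-σ₀) (-2) → σ₀ ≤ (I * z).re ∧ (I * z).re ≤ 2 := by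
    intro z hz
    rw [Set.uIcc_of_ge (by linarith)] at hz
    have h3 : (I * z).re = -z.im := by simp
    rw [h3]
    constructor
    · linarith [hz.2]
    · linarith [hz.1]
  refine ⟨C * ((3 + 1 / η ^ 2) * Real.exp (2 * η ^ 2 + 2 * |L|)), ?_, ?_⟩
  · intro z hz
    obtain ⟨h3, h4⟩ := hab z hz
    have hd : DifferentiableAt ℂ A (I * z) := by
      apply (hdiff (I * z) (by
        change θ < (I * z).re
        linarith)).differentiableAt
      exact (isOpen_lt continuous_const Complex.continuous_re).mem_nhds (by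
        change θ < (I * z).re
        linarith)
    have hI : DifferentiableAt ℂ (fun z : ℂ => I * z) z := by fun_prop
    apply DifferentiableAt.mul
    · exact DifferentiableAt.comp z hd hI
    · unfold G
      fun_prop
  · intro z hz
    obtain ⟨h3, h4⟩ := hab z hz
    have him : (I * z).im = z.re := by simp
    have h5 := hb (I * z) h3 h4
    have h6 := bound_G (η := η) L (I * z) (by linarith) h4
    rw [him] at h5 h6
    have h7 := log_le_exp hη z.re
    simp only [norm_mul]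
    calc ‖A (I * z)‖ * ‖G η L (I * z)‖ ≤
        (C * ((3 + 1 / η ^ 2) * Real.exp (η ^ 2 / 4 * z.re ^ 2))) *
          (Real.exp (2 * η ^ 2 + 2 * |L|) * Real.exp (-(η ^ 2 / 2) * z.re ^ 2)) := by
          apply mul_le_mul _ h6 (norm_nonneg _) (by positivity)
          exact h5.trans (mul_le_mul_of_nonneg_left h7 hC.le)
      _ = C * ((3 + 1 / η ^ 2) * Real.exp (2 * η ^ 2 + 2 * |L|)) *
          (Real.exp (η ^ 2 / 4 * z.re ^ 2) * Real.exp (-(η ^ 2 / 2) * z.re ^ 2)) := by ring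
      _ = _ := by
          rw [← Real.exp_add]
          congr 2
          ring

/-- the side of a zero -/
lemma int_side2 {η : ℝ} (ρ : ℂ) (hρ : ρ.re < 1) (y : ℝ) (hη : 0 < η) :
    MR ρ η y = ((η / Real.sqrt (2 * Real.pi) : ℝ) : ℂ) *
      ∫ t : ℝ, 1 / ((((2 : ℝ) : ℂ) + t * I) - ρ) *
        G η (Real.log y) (((2 : ℝ) : ℂ) + t * I) := by
  have h1 : MR ρ η y = ∫ x in Set.Ioi (1 : ℝ),
      ((η / Real.sqrt (2 * Real.pi) : ℝ) : ℂ) *
        ∫ t : ℝ, (x : ℂ) ^ (ρ - 1) * G η (Real.log y - Real.log x) (((2 : ℝ) : ℂ) + t * I) := by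
    rw [MR]
    apply integral_congr_ae
    filter_upwards with x
    rw [MeasureTheory.integral_const_mul, mul_left_comm, gauss hη]
    congr 3
    ring_nf
  rw [h1, MeasureTheory.integral_const_mul]
  congr 1
  have hint : Integrable (Function.uncurry fun (x t : ℝ) =>
      (x : ℂ) ^ (ρ - 1) * G η (Real.log y - Real.log x) (((2 : ℝ) : ℂ) + t * I))
      ((volume.restrict (Set.Ioi (1 : ℝ))).prod volume) := by
    have hb : Integrable (fun z : ℝ × ℝ => z.1 ^ (-2 : ℝ) *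
        ‖G η (Real.log y) (((2 : ℝ) : ℂ) + z.2 * I)‖)
        ((volume.restrict (Set.Ioi (1 : ℝ))).prod volume) :=
      Integrable.mul_prod (f := fun x : ℝ => x ^ (-2 : ℝ))
        (g := fun t : ℝ => ‖G η (Real.log y) (((2 : ℝ) : ℂ) + t * I)‖)
        (integrableOn_Ioi_rpow_of_lt (by norm_num) (by norm_num)) (integrable_G hη _ _)
    refine hb.mono' ?_ ?_
    · apply Measurable.aestronglyMeasurable
      unfold Function.uncurry G
      fun_prop
    · have h0 : ∀ᵐ z : ℝ × ℝ ∂((volume.restrict (Set.Ioi (1 : ℝ))).prod volume),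
          z.1 ∈ Set.Ioi (1 : ℝ) := by
        have := (ae_restrict_mem (μ := volume) (measurableSet_Ioi (a := (1 : ℝ))))
        exact Measure.quasiMeasurePreserving_fst.ae this
      filter_upwards [h0] with z hz
      have hz0 : 0 < z.1 := lt_trans one_pos hz
      rw [Function.uncurry_def]
      simp only
      rw [G_sub _ _ _ hz0, norm_mul, norm_mul, Complex.norm_cpow_eq_rpow_re_of_pos hz0,
        Complex.norm_cpow_eq_rpow_re_of_pos hz0, ← mul_assoc, ← Real.rpow_add hz0]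
      refine mul_le_mul_of_nonneg_right ?_ (norm_nonneg _)
      apply Real.rpow_le_rpow_of_exponent_le (le_of_lt hz)
      simp
      linarith
  rw [integral_integral_swap hint]
  apply integral_congr_ae
  filter_upwards with t
  have h2 : ∫ x in Set.Ioi (1 : ℝ), (x : ℂ) ^ (ρ - 1) *
      G η (Real.log y - Real.log x) (((2 : ℝ) : ℂ) + t * I) =
      ∫ x in Set.Ioi (1 : ℝ), (x : ℂ) ^ (ρ - 1 - (((2 : ℝ) : ℂ) + t * I)) *
        G η (Real.log y) (((2 : ℝ) : ℂ) + t * I) := by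
    apply setIntegral_congr_fun measurableSet_Ioi
    intro x hx
    have hx0 : 0 < x := lt_trans one_pos hx
    have hxc : (x : ℂ) ≠ 0 := by exact_mod_cast hx0.ne'
    simp only
    rw [G_sub _ _ _ hx0, ← mul_assoc, ← Complex.cpow_add _ _ hxc]
    rfl
  have hre : (ρ - 1 - (((2 : ℝ) : ℂ) + t * I)).re < -1 := by
    simp
    linarith
  rw [h2, MeasureTheory.integral_mul_const,
    integral_Ioi_cpow_of_lt hre (by norm_num)]
  congr 1
  simp only [Complex.ofReal_one, Complex.one_cpow]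
  have h3 : (((2 : ℝ) : ℂ) + t * I) - ρ ≠ 0 := by
    intro h
    have := congrArg Complex.re h
    simp at this
    linarith
  have h4 : (ρ - 1 - (((2 : ℝ) : ℂ) + t * I)) + 1 ≠ 0 := by
    intro h
    apply h3
    linear_combination -h
  field_simp
  ring

lemma integrable_pole2 {η : ℝ} (ρ : ℂ) (hρ : ρ.re < 1) (L : ℝ) (hη : 0 < η) :
    Integrable (fun t : ℝ => 1 / ((((2 : ℝ) : ℂ) + t * I) - ρ) *
      G η L (((2 : ℝ) : ℂ) + t * I)) := by
  refine (integrable_G hη L 2).mono' ?_ ?_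
  · apply Measurable.aestronglyMeasurable
    unfold G
    fun_prop
  · filter_upwards with t
    rw [norm_mul]
    have h1 : 1 ≤ ‖(((2 : ℝ) : ℂ) + t * I) - ρ‖ := by
      calc (1 : ℝ) ≤ |((((2 : ℝ) : ℂ) + t * I) - ρ).re| := by
            simp
            rw [abs_of_pos (by linarith)]
            linarith
        _ ≤ _ := Complex.abs_re_le_norm _
    have h2 : ‖1 / ((((2 : ℝ) : ℂ) + t * I) - ρ)‖ ≤ 1 := by
      rw [norm_div, norm_one]
      exact div_le_one_of_le₀ h1 (norm_nonneg _)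
    calc _ ≤ 1 * ‖G η L (((2 : ℝ) : ℂ) + t * I)‖ := mul_le_mul_of_nonneg_right h2 (norm_nonneg _)
      _ = _ := one_mul _

lemma multi {η : ℝ} (y : ℝ) (hη : 0 < η) (Z : Multiset ℂ) (hZ : ∀ ρ ∈ Z, ρ.re < 1) :
    Integrable (fun t : ℝ => (Z.map (fun ρ => 1 / ((((2 : ℝ) : ℂ) + t * I) - ρ))).sum *
      G η (Real.log y) (((2 : ℝ) : ℂ) + t * I)) ∧
    (Z.map (fun ρ => MR ρ η y)).sum = ((η / Real.sqrt (2 * Real.pi) : ℝ) : ℂ) *
      ∫ t : ℝ, (Z.map (fun ρ => 1 / ((((2 : ℝ) : ℂ) + t * I) - ρ))).sum *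
        G η (Real.log y) (((2 : ℝ) : ℂ) + t * I) := by
  induction Z using Multiset.induction_on with
  | empty => simp
  | cons ρ Z ih =>
    obtain ⟨ih1, ih2⟩ := ih (fun ρ' h => hZ ρ' (Multiset.mem_cons_of_mem h))
    have hρ := hZ ρ (Multiset.mem_cons_self ρ Z)
    have e : ∀ t : ℝ, ((ρ ::ₘ Z).map (fun ρ => 1 / ((((2 : ℝ) : ℂ) + t * I) - ρ))).sum *
        G η (Real.log y) (((2 : ℝ) : ℂ) + t * I) =
        1 / ((((2 : ℝ) : ℂ) + t * I) - ρ) * G η (Real.log y) (((2 : ℝ) : ℂ) + t * I) +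
        (Z.map (fun ρ => 1 / ((((2 : ℝ) : ℂ) + t * I) - ρ))).sum *
          G η (Real.log y) (((2 : ℝ) : ℂ) + t * I) := by
      intro t
      rw [Multiset.map_cons, Multiset.sum_cons, add_mul]
    simp_rw [e]
    have hi := integrable_pole2 ρ hρ (Real.log y) hη
    refine ⟨hi.add ih1, ?_⟩
    rw [integral_add hi ih1, Multiset.map_cons, Multiset.sum_cons, ih2, int_side2 ρ hρ y hη,
      mul_add]

/-- task X-GI -/
theorem gi2 : TX_GI := by
  intro θ Z A hθ hA σ₀ η y h1 h2 hη _ _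
  obtain ⟨K, ha, hb⟩ := hyp2 (by linarith) hA.diff hA.bound (Real.log y) h1 h2 hη
  have h3 : ∫ t : ℝ, A ((σ₀ : ℂ) + t * I) * G η (Real.log y) ((σ₀ : ℂ) + t * I) =
      ∫ t : ℝ, A (((2 : ℝ) : ℂ) + t * I) * G η (Real.log y) (((2 : ℝ) : ℂ) + t * I) := by
    have key := Pool.Agent.Helper242.KK.shift_line (δ := η ^ 2 / 4) (by positivity) ha hb
    simp only [e1] at key
    exact key
  have hi2 : Integrable (fun t : ℝ => A (((2 : ℝ) : ℂ) + t * I) *
      G η (Real.log y) (((2 : ℝ) : ℂ) + t * I)) := by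
    have key := Pool.Agent.Helper242.KK.shift_line_integrable (δ := η ^ 2 / 4) (by positivity)
      ha hb Set.right_mem_uIcc
    simp only [e1] at key
    exact key
  have h4 := sum_side y hη
  have h5 := int_side y hη
  obtain ⟨hm1, hm2⟩ := multi y hη Z hA.zre
  have hp := integrable_pole (Real.log y) hη
  have h6 : ∀ t : ℝ, LSeries (fun n => (ArithmeticFunction.vonMangoldt n : ℂ))
      (((2 : ℝ) : ℂ) + t * I) * G η (Real.log y) (((2 : ℝ) : ℂ) + t * I) =
      (A (((2 : ℝ) : ℂ) + t * I) * G η (Real.log y) (((2 : ℝ) : ℂ) + t * I) +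
      1 / ((((2 : ℝ) : ℂ) + t * I) - 1) * G η (Real.log y) (((2 : ℝ) : ℂ) + t * I)) -
      (Z.map (fun ρ => 1 / ((((2 : ℝ) : ℂ) + t * I) - ρ))).sum *
        G η (Real.log y) (((2 : ℝ) : ℂ) + t * I) := by
    intro t
    rw [hA.eq _ (by simp)]
    ring
  simp_rw [h6] at h4
  have hadd : Integrable (fun t : ℝ => A (((2 : ℝ) : ℂ) + t * I) *
      G η (Real.log y) (((2 : ℝ) : ℂ) + t * I) +
      1 / ((((2 : ℝ) : ℂ) + t * I) - 1) * G η (Real.log y) (((2 : ℝ) : ℂ) + t * I)) :=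
    hi2.add hp
  rw [integral_sub hadd hm1, integral_add hi2 hp, mul_sub, mul_add, ← h5,
    ← h3, ← hm2] at h4
  rw [Complex.ofReal_sub, h4]
  unfold G
  ring

end Pool.Agent.Y847.QRH
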