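import Pool.Agent.Y946.CM.XDefs

/-!
# The term of an exceptional zero is small
-/

set_option autoImplicit false

namespace Pool.Agent.Y847.QRH

open Complex MeasureTheory Filter Topology Set
open Pool.Agent.W76.MO Pool.Agent.Y946.CM

lemma gauss_mellin (β η y : ℝ) (hη : 0 < η) (hy : 0 < y) :
    IntegrableOn (fun x : ℝ => x ^ (β - 1) *
      Real.exp (-(Real.log x - Real.log y) ^ 2 / (2 * η ^ 2))) (Set.Ioi 0) ∧
    ∫ x in Set.Ioi (0 : ℝ), x ^ (β - 1) *
      Real.exp (-(Real.log x - Real.log y) ^ 2 / (2 * η ^ 2)) =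
      y ^ β * (Real.exp (β ^ 2 * η ^ 2 / 2) * Real.sqrt (Real.pi / (1 / (2 * η ^ 2)))) := by
  set g : ℝ → ℝ := fun x : ℝ => x ^ (β - 1) *
      Real.exp (-(Real.log x - Real.log y) ^ 2 / (2 * η ^ 2)) with hg
  set f : ℝ → ℝ := fun u => y * Real.exp u with hf
  have himg : f '' Set.univ = Set.Ioi 0 := by
    ext x
    simp only [Set.image_univ, Set.mem_range, Set.mem_Ioi, hf]
    constructor
    · rintro ⟨u, rfl⟩
      positivity
    · intro hx
      refine ⟨Real.log (x / y), ?_⟩
      rw [Real.exp_log (by positivity)]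
      field_simp
  have hd : ∀ u ∈ (Set.univ : Set ℝ), HasDerivWithinAt f (y * Real.exp u) Set.univ u :=
    fun u _ => ((Real.hasDerivAt_exp u).const_mul y).hasDerivWithinAt
  have hinj : Set.InjOn f Set.univ := by
    intro u _ v _ huv
    simp only [hf] at huv
    exact Real.exp_injective (mul_left_cancel₀ hy.ne' huv)
  have hpt : ∀ u : ℝ, |y * Real.exp u| • g (f u) =
      (y ^ β * Real.exp (β ^ 2 * η ^ 2 / 2)) *
        Real.exp (-(1 / (2 * η ^ 2)) * (u - β * η ^ 2) ^ 2) := by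
    intro u
    have h0 : 0 < y * Real.exp u := by positivity
    rw [abs_of_pos h0, smul_eq_mul]
    simp only [hg, hf]
    rw [← mul_assoc]
    have e1 : y * Real.exp u * (y * Real.exp u) ^ (β - 1) = (y * Real.exp u) ^ β := by
      nth_rewrite 1 [← Real.rpow_one (y * Real.exp u)]
      rw [← Real.rpow_add h0]
      congr 1; ring
    rw [e1, Real.mul_rpow hy.le (Real.exp_pos u).le, ← Real.exp_mul, Real.log_mul hy.ne'
      (Real.exp_pos u).ne', Real.log_exp, mul_assoc, mul_assoc, ← Real.exp_add, ← Real.exp_add]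
    congr 2
    field_simp
    ring
  have hgi : Integrable (fun u : ℝ => Real.exp (-(1 / (2 * η ^ 2)) * (u - β * η ^ 2) ^ 2)) :=
    (integrable_exp_neg_mul_sq (b := 1 / (2 * η ^ 2)) (by positivity)).comp_sub_right (β * η ^ 2)
  constructor
  · have key := (integrableOn_image_iff_integrableOn_abs_deriv_smul MeasurableSet.univ hd hinj g).2
      (by
        rw [integrableOn_univ]
        exact (hgi.const_mul _).congr (Eventually.of_forall fun u => (hpt u).symm))
    rw [himg] at key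
    exact key
  · have key := integral_image_eq_integral_abs_deriv_smul MeasurableSet.univ hd hinj g
    rw [himg] at key
    have key2 : ∫ x in Set.univ, |y * Real.exp x| • g (f x) =
        ∫ u : ℝ, (y ^ β * Real.exp (β ^ 2 * η ^ 2 / 2)) *
        Real.exp (-(1 / (2 * η ^ 2)) * (u - β * η ^ 2) ^ 2) := by
      rw [setIntegral_univ]
      exact integral_congr_ae (Eventually.of_forall hpt)
    rw [key2] at key
    rw [key, integral_const_mul]
    rw [integral_sub_right_eq_self (fun u : ℝ => Real.exp (-(1 / (2 * η ^ 2)) * u ^ 2))]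
    rw [integral_gaussian]
    ring

/-- task X-MB -/
theorem mb2 : TX_MB := by
  intro ρ hρ
  set β := ρ.re with hβ
  refine ⟨Real.exp (β ^ 2 / 2) * Real.sqrt (2 * Real.pi), 1 - β, by positivity, by linarith,
    fun η y hη hη1 hy => ?_⟩
  have hy0 : 0 < y := by linarith
  obtain ⟨h1, h2⟩ := gauss_mellin β η y hη hy0
  have h3 : ‖MR ρ η y‖ ≤ ∫ x in Set.Ioi (1 : ℝ), x ^ (β - 1) *
      Real.exp (-(Real.log x - Real.log y) ^ 2 / (2 * η ^ 2)) := by
    rw [MR]
    refine norm_integral_le_of_norm_le (h1.mono_set (Set.Ioi_subset_Ioi zero_le_one)) ?_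
    filter_upwards [ae_restrict_mem (measurableSet_Ioi (a := (1 : ℝ)))] with x hx
    have hx0 : 0 < x := lt_trans one_pos hx
    rw [norm_mul, Complex.norm_cpow_eq_rpow_re_of_pos hx0, Complex.norm_real,
      Real.norm_of_nonneg (Real.exp_pos _).le]
    simp [hβ]
  have h4 : ∫ x in Set.Ioi (1 : ℝ), x ^ (β - 1) *
      Real.exp (-(Real.log x - Real.log y) ^ 2 / (2 * η ^ 2)) ≤
      ∫ x in Set.Ioi (0 : ℝ), x ^ (β - 1) *
      Real.exp (-(Real.log x - Real.log y) ^ 2 / (2 * η ^ 2)) := by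
    apply setIntegral_mono_set h1
    · filter_upwards [ae_restrict_mem (measurableSet_Ioi (a := (0 : ℝ)))] with x hx
      have hx0 : (0 : ℝ) < x := hx
      show 0 ≤ _
      positivity
    · exact (Set.Ioi_subset_Ioi zero_le_one).eventuallyLE
  refine (h3.trans h4).trans ?_
  rw [h2]
  have e1 : Real.sqrt (Real.pi / (1 / (2 * η ^ 2))) = η * Real.sqrt (2 * Real.pi) := by
    rw [show Real.pi / (1 / (2 * η ^ 2)) = η ^ 2 * (2 * Real.pi) by field_simp,
      Real.sqrt_mul (by positivity), Real.sqrt_sq hη.le]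
  have e2 : y ^ β = y * y ^ (-(1 - β)) := by
    nth_rewrite 2 [← Real.rpow_one y]
    rw [← Real.rpow_add hy0]
    congr 1; ring
  rw [e1, e2]
  have e3 : Real.exp (β ^ 2 * η ^ 2 / 2) ≤ Real.exp (β ^ 2 / 2) := by
    apply Real.exp_le_exp.2
    have : η ^ 2 ≤ 1 := by nlinarith
    nlinarith [sq_nonneg β]
  have e4 : 0 ≤ y * y ^ (-(1 - β)) * (η * Real.sqrt (2 * Real.pi)) := by positivity
  calc y * y ^ (-(1 - β)) * (Real.exp (β ^ 2 * η ^ 2 / 2) * (η * Real.sqrt (2 * Real.pi))) =
      Real.exp (β ^ 2 * η ^ 2 / 2) * (y * y ^ (-(1 - β)) * (η * Real.sqrt (2 * Real.pi))) := by ring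
    _ ≤ Real.exp (β ^ 2 / 2) * (y * y ^ (-(1 - β)) * (η * Real.sqrt (2 * Real.pi))) :=
        mul_le_mul_of_nonneg_right e3 e4
    _ = _ := by ring

end Pool.Agent.Y847.QRH
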