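import Pool.Agent.Y847.QRH.Main
import Pool.Agent.Y847.QRH.GI2
import Pool.Agent.Y847.QRH.MB2
import Pool.Agent.Y847.QRH.BC2
import Pool.Agent.Y847.QRH.FB2

/-!
# Control primes with finitely many exceptional zeros
-/

set_option autoImplicit false

namespace Pool.Agent.Y847.QRH

open Finset Filter Topology
open scoped Classical
open Pool.Agent.W76.MO Pool.Agent.Y946.CM

/-- **Control primes if only finitely many zeros have real part `> 1/2 + δ/4`.** -/
theorem uset_finEx (hZA : ZA2) (τ δ : ℝ) (hτ : 0 < τ) (hτ' : τ ≤ 1 / 100) (hδ : 0 < δ)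
    (hδ' : δ ≤ τ / 1000) (hFin : FinEx (1 / 2 + δ / 4)) : USetAt τ δ := by
  obtain ⟨c, hc, hF⟩ := fb2 hZA (bc2 gi2 mb2)
    (Pool.Agent.W815.CL.cellLow Pool.Agent.W761.MO.btr) (1 / 2 + δ / 4) (by linarith)
    (by linarith) hFin
  obtain ⟨i₀, hi₀, hF⟩ := hF δ (δ / 2) hδ (by linarith) (by linarith)
  refine usetAt Pool.Agent.W761.MO.btr τ δ hτ hτ' hδ hδ' c hc i₀ hi₀ fun i hi => ?_
  refine (hF i hi).trans (le_of_eq ?_)
  congr 1
  ring

end Pool.Agent.Y847.QRH
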